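import Pool.Agent.H25.Airy.Integral

/-!
# The Airy function: equation, connection formula and bounds
-/

open Complex MeasureTheory Filter Topology Set

namespace Pool.Agent.H25.Airy

/-- the Airy function -/
noncomputable def Ai (x : ℂ) : ℂ := (2 * (Real.pi : ℂ))⁻¹ * J 0 1 x

/-- the derivative of the Airy function -/
noncomputable def Ai' (x : ℂ) : ℂ := (2 * (Real.pi : ℂ))⁻¹ * J 1 1 x

theorem hasDerivAt_Ai (x : ℂ) : HasDerivAt Ai (Ai' x) x :=
  (hasDerivAt_J 0 (by simp) x).const_mul _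

theorem hasDerivAt_Ai' (x : ℂ) : HasDerivAt Ai' (x * Ai x) x := by
  have := (hasDerivAt_J 1 (w := 1) (by simp) x).const_mul ((2 * (Real.pi : ℂ))⁻¹)
  refine this.congr_deriv ?_
  rw [J_two (by simp), Ai]
  ring

theorem differentiable_Ai : Differentiable ℂ Ai := fun x => (hasDerivAt_Ai x).differentiableAt

theorem differentiable_Ai' : Differentiable ℂ Ai' := fun x => (hasDerivAt_Ai' x).differentiableAt

/-- solutions of Airy's equation are determined by the initial values -/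
theorem eq_zero {y y' : ℂ → ℂ} (h : ∀ x, HasDerivAt y (y' x) x)
    (h' : ∀ x, HasDerivAt y' (x * y x) x) (h0 : y 0 = 0) (h0' : y' 0 = 0) (x : ℂ) :
    y x = 0 ∧ y' x = 0 := by
  have hs : ∀ t : ℝ, HasDerivAt (fun t : ℝ => (t : ℂ) * x) x t := fun t => by
    simpa using (hasDerivAt_id t).ofReal_comp.mul_const x
  have d1 : ∀ t : ℝ, HasDerivAt (fun t : ℝ => y (t * x)) (y' (t * x) * x) t := fun t => by
    simpa [Function.comp_def] using (h ((t : ℂ) * x)).comp_of_eq t (hs t) rfl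
  have d2 : ∀ t : ℝ, HasDerivAt (fun t : ℝ => y' (t * x)) ((t * x * y (t * x)) * x) t :=
    fun t => by
    simpa [Function.comp_def] using (h' ((t : ℂ) * x)).comp_of_eq t (hs t) rfl
  have key := eq_zero_of_abs_deriv_le_mul_abs_self_of_eq_zero_right (a := 0) (b := 1)
    (K := ‖x‖ + ‖x‖ ^ 2)
    (f := fun t : ℝ => (y (t * x), y' (t * x)))
    (f' := fun t : ℝ => (y' (t * x) * x, (t * x * y (t * x)) * x))
    (fun t _ => ((d1 t).prodMk (d2 t)).continuousAt.continuousWithinAt)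
    (fun t _ => ((d1 t).prodMk (d2 t)).hasDerivWithinAt)
    (by simp [h0, h0']) ?_ 1 (by simp)
  · have h1 : (y (((1 : ℝ) : ℂ) * x), y' (((1 : ℝ) : ℂ) * x)) = 0 := key
    rw [ofReal_one, one_mul, Prod.mk_eq_zero] at h1
    exact h1
  · intro t ht
    have hm1 : ‖y (t * x)‖ ≤ ‖(y (t * x), y' (t * x))‖ := norm_fst_le (y (t * x), y' (t * x))
    have hm2 : ‖y' (t * x)‖ ≤ ‖(y (t * x), y' (t * x))‖ := norm_snd_le (y (t * x), y' (t * x))
    set m := ‖(y (t * x), y' (t * x))‖ with hm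
    have hm0 : 0 ≤ m := norm_nonneg _
    have ht' : |t| ≤ 1 := by
      rw [abs_of_nonneg ht.1]
      exact ht.2.le
    rw [Prod.norm_mk]
    refine max_le ?_ ?_
    · rw [norm_mul]
      nlinarith [norm_nonneg x, mul_le_mul_of_nonneg_right hm2 (norm_nonneg x),
        mul_nonneg (sq_nonneg ‖x‖) hm0]
    · rw [norm_mul, norm_mul, norm_mul, norm_real, Real.norm_eq_abs]
      calc |t| * ‖x‖ * ‖y (t * x)‖ * ‖x‖ ≤ 1 * ‖x‖ * m * ‖x‖ := by gcongr
        _ = ‖x‖ ^ 2 * m := by ring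
        _ ≤ _ := by
          gcongr
          linarith [norm_nonneg x]

theorem cube_eq_one {ω : ℂ} (hω : 1 + ω + ω ^ 2 = 0) : ω ^ 3 = 1 := by
  linear_combination (ω - 1) * hω

/-- rotated solutions -/
theorem hasDerivAt_rot {ω : ℂ} (hω : ω ^ 3 = 1) {y y' : ℂ → ℂ}
    (h : ∀ x, HasDerivAt y (y' x) x) (h' : ∀ x, HasDerivAt y' (x * y x) x) :
    (∀ x, HasDerivAt (fun x => y (ω * x)) (ω * y' (ω * x)) x) ∧
    (∀ x, HasDerivAt (fun x => ω * y' (ω * x)) (x * y (ω * x)) x) := by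
  have hs : ∀ x : ℂ, HasDerivAt (fun x : ℂ => ω * x) ω x := fun x => by
    simpa using (hasDerivAt_id x).const_mul ω
  constructor
  · intro x
    have := (h (ω * x)).comp_of_eq x (hs x) rfl
    refine (this.congr_deriv (mul_comm _ _))
  · intro x
    have := ((h' (ω * x)).comp_of_eq x (hs x) rfl).const_mul ω
    refine this.congr_deriv ?_
    linear_combination (x * y (ω * x)) * hω

/-- the connection formula -/
theorem rot {ω : ℂ} (hω : 1 + ω + ω ^ 2 = 0) (x : ℂ) :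
    Ai x + ω * Ai (ω * x) + ω ^ 2 * Ai (ω ^ 2 * x) = 0 ∧
      Ai' x + ω ^ 2 * Ai' (ω * x) + ω * Ai' (ω ^ 2 * x) = 0 := by
  have h3 := cube_eq_one hω
  have h6 : (ω ^ 2) ^ 3 = 1 := by linear_combination (ω ^ 3 + 1) * h3
  obtain ⟨a1, a2⟩ := hasDerivAt_rot h3 hasDerivAt_Ai hasDerivAt_Ai'
  obtain ⟨b1, b2⟩ := hasDerivAt_rot h6 hasDerivAt_Ai hasDerivAt_Ai'
  have key := eq_zero (y := fun x => Ai x + ω * Ai (ω * x) + ω ^ 2 * Ai (ω ^ 2 * x))
    (y' := fun x => Ai' x + ω * (ω * Ai' (ω * x)) + ω ^ 2 * (ω ^ 2 * Ai' (ω ^ 2 * x)))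
    (fun x => ((hasDerivAt_Ai x).add ((a1 x).const_mul ω)).add ((b1 x).const_mul (ω ^ 2)))
    (fun x => (((hasDerivAt_Ai' x).add ((a2 x).const_mul ω)).add
      ((b2 x).const_mul (ω ^ 2))).congr_deriv (by ring))
    (by
      simp only [mul_zero]
      linear_combination Ai 0 * hω)
    (by
      simp only [mul_zero]
      linear_combination Ai' 0 * hω + Ai' 0 * ω * h3) x
  refine ⟨key.1, ?_⟩
  have := key.2
  linear_combination this - ω * Ai' (ω ^ 2 * x) * h3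

/-- the Wronskian of two solutions is constant -/
theorem wronskian {y y' z z' : ℂ → ℂ} (h : ∀ x, HasDerivAt y (y' x) x)
    (h' : ∀ x, HasDerivAt y' (x * y x) x) (k : ∀ x, HasDerivAt z (z' x) x)
    (k' : ∀ x, HasDerivAt z' (x * z x) x) (x : ℂ) :
    y x * z' x - y' x * z x = y 0 * z' 0 - y' 0 * z 0 := by
  have hd : ∀ x, HasDerivAt (fun x => y x * z' x - y' x * z x) 0 x := fun x =>
    (((h x).mul (k' x)).sub ((h' x).mul (k x))).congr_deriv (by ring)
  exact is_const_of_deriv_eq_zero (fun x => (hd x).differentiableAt)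
    (fun x => (hd x).deriv) x 0

theorem wronskian_rot {ω : ℂ} (hω : ω ^ 3 = 1) (x : ℂ) :
    Ai x * (ω * Ai' (ω * x)) - Ai' x * Ai (ω * x) = (ω - 1) * (Ai 0 * Ai' 0) := by
  obtain ⟨a1, a2⟩ := hasDerivAt_rot hω hasDerivAt_Ai hasDerivAt_Ai'
  have := wronskian hasDerivAt_Ai hasDerivAt_Ai' a1 a2 x
  simp only [mul_zero] at this
  rw [this]
  ring

/-! ### Bounds -/

theorem norm_E_sq (w : ℂ) (s : ℝ) :
    ‖E (w ^ 2) (pt w s)‖ = Real.exp (-w.re * s ^ 2) * ‖cexp (-(2 / 3) * w ^ 3)‖ := by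
  rw [norm_E, norm_exp, ← Real.exp_add]
  congr 1
  have h1 : (w ^ 2 - w ^ 2).im = 0 := by simp
  have h2 : (w ^ 3 / 3 - w ^ 2 * w) = -(2 / 3) * w ^ 3 := by ring
  rw [h1, h2]
  ring

theorem norm_J_zero_le (w : ℂ) :
    ‖J 0 w (w ^ 2)‖ ≤ √(Real.pi / w.re) * ‖cexp (-(2 / 3) * w ^ 3)‖ := by
  unfold J
  refine (norm_integral_le_integral_norm _).trans (le_of_eq ?_)
  have h1 : (fun s : ℝ => ‖F 0 (w ^ 2) (pt w s)‖) =
      fun s : ℝ => Real.exp (-w.re * s ^ 2) * ‖cexp (-(2 / 3) * w ^ 3)‖ := by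
    funext s
    rw [F, pow_zero, one_mul, norm_E_sq]
  rw [h1, integral_mul_const, integral_gaussian]

theorem norm_J_one_le {w : ℂ} (hw : 0 < w.re) :
    ‖J 1 w (w ^ 2)‖ ≤ (√(2 * Real.pi) / w.re + ‖w‖ * √(Real.pi / w.re)) *
      ‖cexp (-(2 / 3) * w ^ 3)‖ := by
  unfold J
  set c := ‖cexp (-(2 / 3) * w ^ 3)‖ with hc
  have hc0 : 0 ≤ c := norm_nonneg _
  have hsq : 0 < √w.re := Real.sqrt_pos.2 hw
  refine (norm_integral_le_integral_norm _).trans ?_
  have i1 : Integrable fun s : ℝ => (√w.re)⁻¹ * Real.exp (-(w.re / 2) * s ^ 2) * c :=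
    (((integrable_exp_neg_mul_sq (by positivity)).const_mul _).mul_const _)
  have i2 : Integrable fun s : ℝ => ‖w‖ * Real.exp (-w.re * s ^ 2) * c :=
    (((integrable_exp_neg_mul_sq hw).const_mul _).mul_const _)
  have h1 : ∀ s : ℝ, ‖F 1 (w ^ 2) (pt w s)‖ ≤
      (√w.re)⁻¹ * Real.exp (-(w.re / 2) * s ^ 2) * c +
        ‖w‖ * Real.exp (-w.re * s ^ 2) * c := by
    intro s
    rw [F, pow_one, norm_mul, norm_mul, norm_I, one_mul, norm_E_sq, ← hc]
    have h2 : ‖pt w s‖ ≤ |s| + ‖w‖ := by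
      unfold pt
      refine (norm_add_le _ _).trans ?_
      rw [norm_real, norm_mul, norm_I, one_mul, Real.norm_eq_abs]
    have h3 : |s| * Real.exp (-w.re * s ^ 2) ≤
        (√w.re)⁻¹ * Real.exp (-(w.re / 2) * s ^ 2) := by
      have h4 : √w.re * |s| ≤ Real.exp (w.re / 2 * s ^ 2) := by
        have h5 := Real.add_one_le_exp (w.re / 2 * s ^ 2)
        have h6 : (√w.re * |s|) ^ 2 = w.re * s ^ 2 := by
          rw [mul_pow, Real.sq_sqrt hw.le, sq_abs]
        nlinarith [sq_nonneg (√w.re * |s| - 1)]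
      have h7 : Real.exp (-(w.re / 2) * s ^ 2) =
          Real.exp (w.re / 2 * s ^ 2) * Real.exp (-w.re * s ^ 2) := by
        rw [← Real.exp_add]
        congr 1
        ring
      rw [h7, ← mul_assoc]
      refine mul_le_mul_of_nonneg_right ?_ (Real.exp_pos _).le
      rw [inv_mul_eq_div, le_div_iff₀ hsq, mul_comm]
      exact h4
    calc ‖pt w s‖ * (Real.exp (-w.re * s ^ 2) * c)
        ≤ (|s| + ‖w‖) * (Real.exp (-w.re * s ^ 2) * c) := by gcongr
      _ = (|s| * Real.exp (-w.re * s ^ 2)) * c + ‖w‖ * Real.exp (-w.re * s ^ 2) * c := by ring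
      _ ≤ _ := by gcongr
  refine (integral_mono (integrable_F 1 hw _).norm (i1.add i2) h1).trans (le_of_eq ?_)
  simp only [Pi.add_apply]
  rw [integral_add i1 i2, integral_mul_const, integral_mul_const, integral_const_mul,
    integral_const_mul, integral_gaussian, integral_gaussian]
  have h8 : (√w.re)⁻¹ * √(Real.pi / (w.re / 2)) = √(2 * Real.pi) / w.re := by
    have : Real.pi / (w.re / 2) = 2 * Real.pi / w.re := by ring
    rw [this, Real.sqrt_div' _ hw.le]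
    have h9 : √w.re * √w.re = w.re := Real.mul_self_sqrt hw.le
    field_simp
    rw [sq, h9]
  rw [h8]
  ring

theorem Ai_eq {w : ℂ} (hw : 0 < w.re) (x : ℂ) : Ai x = (2 * (Real.pi : ℂ))⁻¹ * J 0 w x := by
  rw [Ai, J_eq 0 (by simp) hw]

theorem Ai'_eq {w : ℂ} (hw : 0 < w.re) (x : ℂ) : Ai' x = (2 * (Real.pi : ℂ))⁻¹ * J 1 w x := by
  rw [Ai', J_eq 1 (by simp) hw]

theorem norm_two_pi_inv : ‖(2 * (Real.pi : ℂ))⁻¹‖ ≤ 1 := by
  rw [norm_inv, norm_mul, norm_real, Real.norm_eq_abs, abs_of_pos Real.pi_pos]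
  have : ‖(2 : ℂ)‖ = 2 := by norm_num
  rw [this]
  refine inv_le_one_of_one_le₀ ?_
  nlinarith [Real.pi_gt_three]

/-- the bound for `Ai` in sectors around the positive axis: `w` is a square root of the argument -/
theorem exists_bound_Ai {δ : ℝ} (hδ : 0 < δ) : ∃ C : ℝ, 0 < C ∧ ∀ w : ℂ, δ * ‖w‖ ≤ w.re →
    ‖Ai (w ^ 2)‖ ≤ C / √(1 + ‖w‖) * ‖cexp (-(2 / 3) * w ^ 3)‖ ∧
      ‖Ai' (w ^ 2)‖ ≤ C * √(1 + ‖w‖) * ‖cexp (-(2 / 3) * w ^ 3)‖ := by
  -- the bounded part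
  obtain ⟨M, hM⟩ : ∃ M : ℝ, ∀ x : ℂ, ‖x‖ ≤ 1 → ‖Ai x‖ ≤ M ∧ ‖Ai' x‖ ≤ M := by
    obtain ⟨M1, h1⟩ := (isCompact_closedBall (0 : ℂ) 1).exists_bound_of_continuousOn
      differentiable_Ai.continuous.continuousOn
    obtain ⟨M2, h2⟩ := (isCompact_closedBall (0 : ℂ) 1).exists_bound_of_continuousOn
      differentiable_Ai'.continuous.continuousOn
    refine ⟨max M1 M2, fun x hx => ⟨(h1 x ?_).trans (le_max_left _ _),
      (h2 x ?_).trans (le_max_right _ _)⟩⟩
    · simpa using hx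
    · simpa using hx
  have hM0 : 0 ≤ M := (norm_nonneg _).trans (hM 0 (by simp)).1
  set C₁ : ℝ := M * √2 * Real.exp (2 / 3) with hC₁
  set C₂ : ℝ := √(2 * Real.pi / δ) with hC₂
  set C₃ : ℝ := √(2 * Real.pi) / δ + √(Real.pi / δ) with hC₃
  have h10 : 0 ≤ C₁ := by positivity
  have h20 : 0 ≤ C₂ := by positivity
  have h30 : 0 ≤ C₃ := by positivity
  refine ⟨C₁ + C₂ + C₃ + 1, by positivity, fun w hw => ?_⟩
  set e := ‖cexp (-(2 / 3) * w ^ 3)‖ with he
  have he0 : 0 < e := by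
    rw [he]
    exact norm_pos_iff.2 (exp_ne_zero _)
  have hs1 : 1 ≤ √(1 + ‖w‖) := by
    rw [Real.one_le_sqrt]
    linarith [norm_nonneg w]
  have hs0 : 0 < √(1 + ‖w‖) := by linarith
  rcases le_or_gt ‖w‖ 1 with h1 | h1
  · have hx : ‖w ^ 2‖ ≤ 1 := by
      rw [norm_pow]
      exact pow_le_one₀ (norm_nonneg _) h1
    obtain ⟨m1, m2⟩ := hM _ hx
    have he1 : 1 ≤ Real.exp (2 / 3) * e := by
      rw [he, norm_exp, ← Real.exp_add]
      apply Real.one_le_exp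
      have h3 : -(2 / 3) ≤ (-(2 / 3) * w ^ 3).re := by
        have h4 : ‖-(2 / 3) * w ^ 3‖ ≤ 2 / 3 := by
          rw [norm_mul, norm_pow]
          have h5 : ‖(-(2 / 3) : ℂ)‖ = 2 / 3 := by
            rw [norm_neg, norm_div]
            norm_num
          rw [h5]
          have : ‖w‖ ^ 3 ≤ 1 := pow_le_one₀ (norm_nonneg _) h1
          linarith
        have := (abs_re_le_norm (-(2 / 3) * w ^ 3)).trans h4
        exact (abs_le.1 this).1
      linarith
    have hs2 : √(1 + ‖w‖) ≤ √2 := Real.sqrt_le_sqrt (by linarith)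
    have hC1 : M * √2 ≤ C₁ * e := by
      rw [hC₁]
      calc M * √2 = M * √2 * 1 := by ring
        _ ≤ M * √2 * (Real.exp (2 / 3) * e) := by gcongr
        _ = _ := by ring
    constructor
    · rw [div_mul_eq_mul_div, le_div_iff₀ hs0]
      calc ‖Ai (w ^ 2)‖ * √(1 + ‖w‖) ≤ M * √2 := by gcongr
        _ ≤ C₁ * e := hC1
        _ ≤ _ := by
          gcongr
          linarith
    · calc ‖Ai' (w ^ 2)‖ ≤ M := m2
        _ ≤ M * √2 := by
          refine le_mul_of_one_le_right hM0 ?_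
          rw [Real.one_le_sqrt]
          norm_num
        _ ≤ C₁ * e := hC1
        _ ≤ (C₁ + C₂ + C₃ + 1) * e := by
          gcongr
          linarith
        _ = (C₁ + C₂ + C₃ + 1) * 1 * e := by ring
        _ ≤ _ := by gcongr
  · have hn : 0 < ‖w‖ := by linarith
    have hre : 0 < w.re := lt_of_lt_of_le (by positivity) hw
    have hsn : 0 < √‖w‖ := Real.sqrt_pos.2 hn
    have hsδ : 0 < √δ := Real.sqrt_pos.2 hδ
    have hs2 : √(1 + ‖w‖) ≤ √2 * √‖w‖ := by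
      rw [← Real.sqrt_mul (by norm_num)]
      exact Real.sqrt_le_sqrt (by linarith)
    have hs3 : √‖w‖ ≤ √(1 + ‖w‖) := Real.sqrt_le_sqrt (by linarith)
    have hq : √(Real.pi / w.re) ≤ √(Real.pi / δ) / √‖w‖ := by
      rw [← Real.sqrt_div' _ hn.le, div_div]
      exact Real.sqrt_le_sqrt (by gcongr)
    constructor
    · rw [Ai_eq hre, norm_mul]
      calc ‖(2 * (Real.pi : ℂ))⁻¹‖ * ‖J 0 w (w ^ 2)‖
          ≤ 1 * (√(Real.pi / w.re) * e) := by
            gcongr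
            · exact norm_two_pi_inv
            · exact norm_J_zero_le w
        _ ≤ 1 * (√(Real.pi / δ) / √‖w‖ * e) := by gcongr
        _ ≤ C₂ / √(1 + ‖w‖) * e := by
            rw [one_mul]
            refine mul_le_mul_of_nonneg_right ?_ he0.le
            rw [div_le_div_iff₀ hsn hs0, hC₂]
            calc √(Real.pi / δ) * √(1 + ‖w‖) ≤ √(Real.pi / δ) * (√2 * √‖w‖) := by gcongr
              _ = √(2 * Real.pi / δ) * √‖w‖ := by
                rw [mul_div_assoc, Real.sqrt_mul (by norm_num)]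
                ring
        _ ≤ _ := by
            gcongr
            linarith
    · rw [Ai'_eq hre, norm_mul]
      calc ‖(2 * (Real.pi : ℂ))⁻¹‖ * ‖J 1 w (w ^ 2)‖
          ≤ 1 * ((√(2 * Real.pi) / w.re + ‖w‖ * √(Real.pi / w.re)) * e) := by
            gcongr
            · exact norm_two_pi_inv
            · exact norm_J_one_le hre
        _ ≤ 1 * ((√(2 * Real.pi) / δ + ‖w‖ * (√(Real.pi / δ) / √‖w‖)) * e) := by
            gcongr
            calc δ ≤ δ * ‖w‖ := le_mul_of_one_le_right hδ.le h1.le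
              _ ≤ w.re := hw
        _ ≤ (C₃ * √(1 + ‖w‖)) * e := by
            rw [one_mul]
            gcongr
            rw [hC₃, add_mul]
            refine add_le_add ?_ ?_
            · exact le_mul_of_one_le_right (by positivity) hs1
            · have : ‖w‖ * (√(Real.pi / δ) / √‖w‖) = √(Real.pi / δ) * √‖w‖ := by
                rw [mul_div_assoc', div_eq_iff hsn.ne', mul_assoc, Real.mul_self_sqrt hn.le]
                ring
              rw [this]
              gcongr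
        _ ≤ _ := by
            gcongr
            linarith

/-! ### Nonvanishing -/

/-- the Airy function is not identically zero -/
theorem Ai_one_ne_zero : Ai 1 ≠ 0 := by
  have h1 : (1 : ℂ) = 1 ^ 2 := by norm_num
  rw [Ai]
  refine mul_ne_zero (inv_ne_zero (mul_ne_zero two_ne_zero
    (by exact_mod_cast Real.pi_ne_zero))) ?_
  have hre : 0 < (1 : ℂ).re := by simp
  -- split off the Gaussian integral
  have hE : ∀ s : ℝ, F 0 1 (pt 1 s) = cexp (-(2 / 3)) *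
      (cexp (I * (s : ℂ) ^ 3 / 3) * (Real.exp (-1 * s ^ 2) : ℂ)) := by
    intro s
    rw [F, pow_zero, one_mul, E, exponent_eq, ofReal_exp, ← Complex.exp_add, ← Complex.exp_add]
    congr 1
    push_cast
    ring
  have hint : Integrable fun s : ℝ =>
      cexp (I * (s : ℂ) ^ 3 / 3) * (Real.exp (-1 * s ^ 2) : ℂ) := by
    have h2 := (integrable_F 0 hre 1).const_mul (cexp (2 / 3))
    refine h2.congr (Eventually.of_forall fun s => ?_)
    simp only
    rw [hE, ← mul_assoc, ← Complex.exp_add]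
    simp
  have hg : Integrable fun s : ℝ => ((Real.exp (-1 * s ^ 2) : ℝ) : ℂ) :=
    (integrable_exp_neg_mul_sq one_pos).ofReal
  have hJ : J 0 1 1 = cexp (-(2 / 3)) *
      ∫ s : ℝ, cexp (I * (s : ℂ) ^ 3 / 3) * (Real.exp (-1 * s ^ 2) : ℂ) := by
    rw [J, ← integral_const_mul]
    exact integral_congr_ae (Eventually.of_forall hE)
  rw [hJ]
  refine mul_ne_zero (exp_ne_zero _) ?_
  intro h0
  have hG : ∫ s : ℝ, ((Real.exp (-1 * s ^ 2) : ℝ) : ℂ) = (√Real.pi : ℝ) := by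
    rw [integral_complex_ofReal, integral_gaussian]
    norm_num
  have hdiff : ‖∫ s : ℝ, (cexp (I * (s : ℂ) ^ 3 / 3) * (Real.exp (-1 * s ^ 2) : ℂ) -
      ((Real.exp (-1 * s ^ 2) : ℝ) : ℂ))‖ ≤ 2 / 3 * √(2 * Real.pi) := by
    refine (norm_integral_le_integral_norm _).trans ?_
    have h3 : ∫ s : ℝ, 2 / 3 * Real.exp (-(1 / 2) * s ^ 2) = 2 / 3 * √(2 * Real.pi) := by
      rw [integral_const_mul, integral_gaussian]
      congr 2
      ring
    rw [← h3]
    refine integral_mono (hint.sub hg).norm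
      ((integrable_exp_neg_mul_sq (by norm_num)).const_mul _) fun s => ?_
    have h4 : cexp (I * (s : ℂ) ^ 3 / 3) * (Real.exp (-1 * s ^ 2) : ℂ) -
        ((Real.exp (-1 * s ^ 2) : ℝ) : ℂ) =
        (cexp (I * ((s ^ 3 / 3 : ℝ) : ℂ)) - 1) * (Real.exp (-1 * s ^ 2) : ℂ) := by
      push_cast
      ring_nf
    simp only [h4, norm_mul, norm_real, Real.norm_eq_abs, Real.abs_exp]
    have h5 := Real.norm_exp_I_mul_ofReal_sub_one_le (x := s ^ 3 / 3)
    rw [Real.norm_eq_abs, abs_div, abs_pow, abs_of_pos (by norm_num : (0 : ℝ) < 3)] at h5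
    have h6 : |s| ^ 3 ≤ 2 * Real.exp (1 / 2 * s ^ 2) := by
      have h7 := Real.quadratic_le_exp_of_nonneg (x := 1 / 2 * s ^ 2) (by positivity)
      have h8 : |s| ^ 2 = s ^ 2 := sq_abs s
      have h9 : 0 ≤ (|s| * (|s| - 2)) ^ 2 := sq_nonneg _
      have h10 : (|s| * (|s| - 2)) ^ 2 = (|s| ^ 2) ^ 2 - 4 * |s| ^ 3 + 4 * |s| ^ 2 := by ring
      rw [h10, h8] at h9
      nlinarith
    have h7 : Real.exp (-(1 / 2) * s ^ 2) =
        Real.exp (1 / 2 * s ^ 2) * Real.exp (-1 * s ^ 2) := by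
      rw [← Real.exp_add]
      congr 1
      ring
    rw [h7, ← mul_assoc]
    refine mul_le_mul_of_nonneg_right (h5.trans ?_) (Real.exp_pos _).le
    linarith
  rw [integral_sub hint hg, h0, hG, zero_sub, norm_neg, norm_real, Real.norm_eq_abs,
    abs_of_nonneg (Real.sqrt_nonneg _), Real.sqrt_mul (by norm_num)] at hdiff
  have hpi : 0 < √Real.pi := Real.sqrt_pos.2 Real.pi_pos
  have h2 : √2 < 3 / 2 := by
    rw [Real.sqrt_lt' (by norm_num)]
    norm_num
  nlinarith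

theorem good_of_pos {w : ℂ} (h1 : 0 < w.re) (h2 : 0 ≤ (w ^ 3).re) :
    1 / 2 * ‖w‖ ≤ w.re := by
  have h3 : (w ^ 3).re = w.re * (w.re ^ 2 - 3 * w.im ^ 2) := by
    rw [pow_succ, pow_two]
    simp only [mul_re, mul_im]
    ring
  rw [h3] at h2
  have h4 : 0 ≤ w.re ^ 2 - 3 * w.im ^ 2 := by
    by_contra h
    push Not at h
    nlinarith
  have h5 : ‖w‖ ^ 2 ≤ (2 * w.re) ^ 2 := by
    rw [← normSq_eq_norm_sq, normSq_apply]
    nlinarith
  linarith [(abs_le_of_sq_le_sq' h5 (by linarith)).2]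

/-- for `ω` with `1 + ω + ω ^ 2 = 0`, every `x` is `ω ^ k w ^ 2` with `|arg w| ≤ π / 6` -/
theorem exists_sector {ω : ℂ} (hω : 1 + ω + ω ^ 2 = 0) (x : ℂ) :
    ∃ (k : ℕ) (w : ℂ), k < 3 ∧ x = ω ^ k * w ^ 2 ∧ 1 / 2 * ‖w‖ ≤ w.re ∧ 0 ≤ (w ^ 3).re := by
  have h3 := cube_eq_one hω
  obtain ⟨w₀, hw₀⟩ := IsAlgClosed.exists_pow_nat_eq x (n := 2) (by norm_num)
  obtain ⟨v, hv, hv3⟩ : ∃ v : ℂ, v ^ 2 = x ∧ 0 ≤ (v ^ 3).re := by
    rcases le_total 0 (w₀ ^ 3).re with h | h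
    · exact ⟨w₀, hw₀, h⟩
    · refine ⟨-w₀, by rw [neg_sq, hw₀], ?_⟩
      have : (-w₀) ^ 3 = -w₀ ^ 3 := by ring
      rw [this, neg_re]
      linarith
  by_cases hx : v = 0
  · refine ⟨0, 0, by norm_num, ?_, by simp, by simp⟩
    rw [← hv, hx]
    ring
  by_cases p0 : 0 < v.re
  · exact ⟨0, v, by norm_num, by rw [← hv]; ring, good_of_pos p0 hv3, hv3⟩
  have hc1 : (ω * v) ^ 3 = v ^ 3 := by linear_combination v ^ 3 * h3
  have hc2 : (ω ^ 2 * v) ^ 3 = v ^ 3 := by linear_combination v ^ 3 * (ω ^ 3 + 1) * h3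
  by_cases p1 : 0 < (ω * v).re
  · refine ⟨1, ω * v, by norm_num, ?_, good_of_pos p1 (by rw [hc1]; exact hv3),
      by rw [hc1]; exact hv3⟩
    rw [← hv]
    linear_combination (-v ^ 2) * h3
  by_cases p2 : 0 < (ω ^ 2 * v).re
  · refine ⟨2, ω ^ 2 * v, by norm_num, ?_, good_of_pos p2 (by rw [hc2]; exact hv3),
      by rw [hc2]; exact hv3⟩
    rw [← hv]
    linear_combination (-v ^ 2 * (ω ^ 3 + 1)) * h3
  exfalso
  have hs : v.re + (ω * v).re + (ω ^ 2 * v).re = 0 := by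
    rw [← add_re, ← add_re]
    have : v + ω * v + ω ^ 2 * v = 0 := by linear_combination v * hω
    rw [this, zero_re]
  have z0 : v.re = 0 := by linarith
  have z1 : (ω * v).re = 0 := by linarith
  rw [mul_re, z0, mul_zero, zero_sub, neg_eq_zero, mul_eq_zero] at z1
  rcases z1 with h | h
  · have h5 := congrArg re hω
    have h6 : (ω ^ 2).re = ω.re ^ 2 - ω.im ^ 2 := by rw [pow_two, mul_re]; ring
    rw [add_re, add_re, h6, h, one_re, zero_re] at h5
    nlinarith [sq_nonneg (ω.re + 1 / 2)]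
  · exact hx (Complex.ext z0 h)

/-- the Airy function is bounded near the positive axis -/
theorem exists_bound_sector : ∃ C : ℝ, ∀ w : ℂ, 1 / 2 * ‖w‖ ≤ w.re → 0 ≤ (w ^ 3).re →
    ‖Ai (w ^ 2)‖ ≤ C := by
  obtain ⟨C, hC0, hC⟩ := exists_bound_Ai (δ := 1 / 2) (by norm_num)
  refine ⟨C, fun w h1 h2 => (hC w h1).1.trans ?_⟩
  have h3 : ‖cexp (-(2 / 3) * w ^ 3)‖ ≤ 1 := by
    rw [norm_exp, Real.exp_le_one_iff]
    have : -(2 / 3) * w ^ 3 = ((-(2 / 3) : ℝ) : ℂ) * w ^ 3 := by push_cast; ring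
    rw [this, re_ofReal_mul]
    nlinarith
  have h4 : C / √(1 + ‖w‖) ≤ C := by
    refine div_le_self hC0.le ?_
    rw [Real.one_le_sqrt]
    linarith [norm_nonneg w]
  calc C / √(1 + ‖w‖) * ‖cexp (-(2 / 3) * w ^ 3)‖ ≤ C * 1 := by gcongr
    _ = C := mul_one C

/-- if `|Ai (ω x)| = |Ai x|` for all `x` then `Ai` would be constant -/
theorem not_symmetric {ω : ℂ} (hω : 1 + ω + ω ^ 2 = 0) (h : ∀ x, ‖Ai (ω * x)‖ = ‖Ai x‖) :
    False := by
  obtain ⟨C, hC⟩ := exists_bound_sector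
  have hb : ∀ x, ‖Ai x‖ ≤ C := by
    intro x
    obtain ⟨k, w, hk, rfl, h1, h2⟩ := exists_sector hω x
    have hk : ∀ k : ℕ, ‖Ai (ω ^ k * w ^ 2)‖ = ‖Ai (w ^ 2)‖ := by
      intro k
      induction k with
      | zero => simp
      | succ k ih =>
        rw [← ih, ← h (ω ^ k * w ^ 2)]
        congr 2
        ring
    rw [hk]
    exact hC w h1 h2
  have hconst : ∀ x, Ai x = Ai 0 := fun x =>
    differentiable_Ai.apply_eq_apply_of_bounded
      ((isBounded_iff_forall_norm_le).2 ⟨C, by rintro _ ⟨x, rfl⟩; exact hb x⟩) x 0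
  have hd : ∀ x, Ai' x = 0 := by
    intro x
    have h1 : HasDerivAt Ai 0 x := by
      have : Ai = fun _ => Ai 0 := funext hconst
      rw [this]
      exact hasDerivAt_const _ _
    exact (hasDerivAt_Ai x).unique h1
  have hd2 : 1 * Ai 1 = 0 := by
    have h1 : HasDerivAt Ai' 0 1 := by
      have : Ai' = fun _ => (0 : ℂ) := funext hd
      rw [this]
      exact hasDerivAt_const _ _
    exact (hasDerivAt_Ai' 1).unique h1
  rw [one_mul] at hd2
  exact Ai_one_ne_zero hd2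

theorem exists_omega : ∃ ω : ℂ, 1 + ω + ω ^ 2 = 0 := by
  refine ⟨-1 / 2 + (√3 / 2 : ℝ) * I, ?_⟩
  have h1 : ((√3 : ℝ) : ℂ) ^ 2 = 3 := by
    rw [← ofReal_pow, Real.sq_sqrt (by norm_num)]
    norm_num
  have h2 : I ^ 2 = -1 := I_sq
  push_cast
  linear_combination (1 / 4 * I ^ 2) * h1 + 3 / 4 * h2

theorem Ai_zero_ne_zero : Ai 0 ≠ 0 := by
  intro h0
  obtain ⟨ω, hω⟩ := exists_omega
  have h3 := cube_eq_one hω
  refine not_symmetric hω fun x => ?_
  obtain ⟨a1, a2⟩ := hasDerivAt_rot h3 hasDerivAt_Ai hasDerivAt_Ai'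
  have key := (eq_zero (y := fun x => Ai (ω * x) - ω * Ai x)
    (y' := fun x => ω * Ai' (ω * x) - ω * Ai' x)
    (fun x => (a1 x).sub ((hasDerivAt_Ai x).const_mul ω))
    (fun x => ((a2 x).sub ((hasDerivAt_Ai' x).const_mul ω)).congr_deriv (by ring))
    (by simp [h0]) (by simp) x).1
  have hn : ‖ω‖ = 1 := by
    have := congrArg norm h3
    rw [norm_pow, norm_one] at this
    exact (pow_eq_one_iff_of_nonneg (norm_nonneg _) (by norm_num)).1 this
  rw [sub_eq_zero] at key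
  rw [key, norm_mul, hn, one_mul]

theorem Ai'_zero_ne_zero : Ai' 0 ≠ 0 := by
  intro h0
  obtain ⟨ω, hω⟩ := exists_omega
  have h3 := cube_eq_one hω
  refine not_symmetric hω fun x => ?_
  obtain ⟨a1, a2⟩ := hasDerivAt_rot h3 hasDerivAt_Ai hasDerivAt_Ai'
  have key := (eq_zero (y := fun x => Ai (ω * x) - Ai x)
    (y' := fun x => ω * Ai' (ω * x) - Ai' x)
    (fun x => (a1 x).sub (hasDerivAt_Ai x))
    (fun x => ((a2 x).sub (hasDerivAt_Ai' x)).congr_deriv (by ring))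
    (by simp) (by simp [h0]) x).1
  rw [sub_eq_zero] at key
  rw [key]

/-! ### The bounds in terms of the argument -/

/-- the square root of `x` lies in a sector -/
theorem re_sqrt {x : ℂ} {θ : ℝ} (h : |arg x| ≤ θ) (hθ : θ ≤ Real.pi) :
    Real.cos (θ / 2) * ‖x ^ (1 / 2 : ℂ)‖ ≤ (x ^ (1 / 2 : ℂ)).re := by
  by_cases hx : x = 0
  · subst hx
    simp
  have h1 : x ^ (1 / 2 : ℂ) = ‖x ^ (1 / 2 : ℂ)‖ * cexp ((arg x / 2 : ℝ) * I) := by
    rw [cpow_def_of_ne_zero hx, norm_exp, ofReal_exp, ← Complex.exp_add]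
    congr 1
    apply Complex.ext
    · simp [log_re]
    · simp [log_im]
      ring
  rw [h1, re_ofReal_mul, exp_ofReal_mul_I_re, norm_mul, norm_real, norm_norm,
    norm_exp_ofReal_mul_I, mul_one, mul_comm]
  gcongr
  rw [← Real.cos_abs (arg x / 2)]
  apply Real.cos_le_cos_of_nonneg_of_le_pi (abs_nonneg _)
  · linarith [Real.pi_pos]
  · rw [abs_div, abs_of_pos (by norm_num : (0 : ℝ) < 2)]
    linarith

/-- for `θ < π` the Airy function and its derivative are bounded by the expected exponential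
in the sector `|arg x| ≤ θ` -/
theorem exists_bound_arg {θ : ℝ} (hθ : θ < Real.pi) : ∃ C : ℝ, 0 < C ∧ ∀ x : ℂ, |arg x| ≤ θ →
    ‖Ai x‖ ≤ C / √(1 + ‖x ^ (1 / 2 : ℂ)‖) * ‖cexp (-(2 / 3) * (x ^ (1 / 2 : ℂ)) ^ 3)‖ ∧
      ‖Ai' x‖ ≤ C * √(1 + ‖x ^ (1 / 2 : ℂ)‖) *
        ‖cexp (-(2 / 3) * (x ^ (1 / 2 : ℂ)) ^ 3)‖ := by
  rcases lt_or_ge θ 0 with h0 | h0
  · refine ⟨1, one_pos, fun x hx => ?_⟩
    exact absurd ((abs_nonneg _).trans hx) (not_le.2 h0)
  have hδ : 0 < Real.cos (θ / 2) := by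
    apply Real.cos_pos_of_mem_Ioo
    constructor <;> linarith [Real.pi_pos]
  obtain ⟨C, hC0, hC⟩ := exists_bound_Ai hδ
  refine ⟨C, hC0, fun x hx => ?_⟩
  have h1 := hC _ (re_sqrt hx hθ.le)
  have h2 : (x ^ (1 / 2 : ℂ)) ^ 2 = x := by simp
  rwa [h2] at h1

end Pool.Agent.H25.Airy
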