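import Mathlib

/-!
# The Airy function as a contour integral

`J k w x = ∫ (i z) ^ k exp (i (z ^ 3 / 3 + x z)) dz` over the line `z = s + i w`, `s ∈ ℝ`
(`w` complex with positive real part).
-/

open Complex MeasureTheory Filter Topology Set

namespace Pool.Agent.H25.Airy

/-- the integrand `exp (i (z ^ 3 / 3 + x z))` -/
noncomputable def E (x z : ℂ) : ℂ := cexp (I * (z ^ 3 / 3 + x * z))

/-- the integrand with the factor `(i z) ^ k` -/
noncomputable def F (k : ℕ) (x z : ℂ) : ℂ := (I * z) ^ k * E x z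

/-- the point `s + i w` of the path of integration -/
noncomputable def pt (w : ℂ) (s : ℝ) : ℂ := s + I * w

/-- the integrals -/
noncomputable def J (k : ℕ) (w x : ℂ) : ℂ := ∫ s : ℝ, F k x (pt w s)

theorem exponent_eq (x w : ℂ) (s : ℝ) :
    I * ((pt w s) ^ 3 / 3 + x * pt w s) =
      I * (s : ℂ) ^ 3 / 3 - w * s ^ 2 + I * (x - w ^ 2) * s + (w ^ 3 / 3 - x * w) := by
  have h : I ^ 2 = -1 := I_sq
  unfold pt
  linear_combination ((s : ℂ) ^ 2 * w + I * s * w ^ 2 + (I ^ 2 - 1) * w ^ 3 / 3 + x * w) * h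

theorem exponent_re (x w : ℂ) (s : ℝ) :
    (I * ((pt w s) ^ 3 / 3 + x * pt w s)).re =
      -w.re * s ^ 2 + (w ^ 2 - x).im * s + (w ^ 3 / 3 - x * w).re := by
  rw [exponent_eq]
  have h1 : (I * (s : ℂ) ^ 3 / 3).re = 0 := by
    have : I * (s : ℂ) ^ 3 / 3 = ((s ^ 3 / 3 : ℝ) : ℂ) * I := by push_cast; ring
    rw [this, re_ofReal_mul, I_re, mul_zero]
  have h2 : (w * (s : ℂ) ^ 2).re = w.re * s ^ 2 := by
    have : w * (s : ℂ) ^ 2 = ((s ^ 2 : ℝ) : ℂ) * w := by push_cast; ring
    rw [this, re_ofReal_mul, mul_comm]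
  have h3 : (I * (x - w ^ 2) * s).re = (w ^ 2 - x).im * s := by
    have : I * (x - w ^ 2) * s = ((s : ℝ) : ℂ) * (I * (x - w ^ 2)) := by ring
    rw [this, re_ofReal_mul]
    have : (I * (x - w ^ 2)).re = -(x - w ^ 2).im := by simp
    rw [this, sub_im, sub_im]
    ring
  rw [add_re, add_re, sub_re, h1, h2, h3]
  ring

theorem norm_E (x w : ℂ) (s : ℝ) : ‖E x (pt w s)‖ =
    Real.exp (-w.re * s ^ 2 + (w ^ 2 - x).im * s + (w ^ 3 / 3 - x * w).re) := by
  rw [E, norm_exp, exponent_re]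

/-- uniform Gaussian bound -/
theorem exists_bound (k : ℕ) {w₀ : ℂ} (hw₀ : 0 < w₀.re) (x₀ : ℂ) :
    ∃ C : ℝ, ∀ w : ℂ, ‖w - w₀‖ ≤ w₀.re / 2 → ∀ x : ℂ, ‖x - x₀‖ ≤ 1 → ∀ s : ℝ,
      ‖F k x (pt w s)‖ ≤ C * Real.exp (-(w₀.re / 4) * s ^ 2) := by
  set α : ℝ := w₀.re / 4 with hα
  have hα0 : 0 < α := by positivity
  set R : ℝ := ‖w₀‖ + w₀.re / 2 with hR
  set X : ℝ := ‖x₀‖ + 1 with hX
  set B : ℝ := R ^ 2 + X with hB
  set c : ℝ := R ^ 3 / 3 + X * R with hc
  refine ⟨(k.factorial : ℝ) * Real.exp (R + c + (B + 1) ^ 2 / (4 * α)), fun w hw x hx s => ?_⟩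
  have hwn : ‖w‖ ≤ R := by
    calc ‖w‖ = ‖w₀ + (w - w₀)‖ := by ring_nf
      _ ≤ ‖w₀‖ + ‖w - w₀‖ := norm_add_le _ _
      _ ≤ R := by rw [hR]; linarith
  have hxn : ‖x‖ ≤ X := by
    calc ‖x‖ = ‖x₀ + (x - x₀)‖ := by ring_nf
      _ ≤ ‖x₀‖ + ‖x - x₀‖ := norm_add_le _ _
      _ ≤ X := by rw [hX]; linarith
  have hre : 2 * α ≤ w.re := by
    have h1 : (w₀ - w).re ≤ w₀.re / 2 := by
      refine (re_le_norm _).trans ?_
      rwa [← norm_neg, neg_sub]
    rw [sub_re] at h1
    rw [hα]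
    linarith
  have hR0 : 0 ≤ R := (norm_nonneg _).trans hwn
  have hX0 : 0 ≤ X := (norm_nonneg _).trans hxn
  have h1 : |(w ^ 2 - x).im| ≤ B := by
    refine (abs_im_le_norm _).trans ((norm_sub_le _ _).trans ?_)
    rw [norm_pow, hB]
    gcongr
  have h2 : (w ^ 3 / 3 - x * w).re ≤ c := by
    refine (re_le_norm _).trans ((norm_sub_le _ _).trans ?_)
    rw [norm_div, norm_pow, norm_mul, hc]
    have : ‖(3 : ℂ)‖ = 3 := by norm_num
    rw [this]
    gcongr
  have h3 : ‖(I * pt w s) ^ k‖ ≤ k.factorial * Real.exp (|s| + R) := by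
    rw [norm_pow, norm_mul, norm_I, one_mul]
    have h4 : ‖pt w s‖ ≤ |s| + R := by
      unfold pt
      refine (norm_add_le _ _).trans ?_
      rw [norm_real, norm_mul, norm_I, one_mul, Real.norm_eq_abs]
      linarith
    have h5 : 0 ≤ |s| + R := by positivity
    have h6 := Real.pow_div_factorial_le_exp (|s| + R) h5 k
    rw [div_le_iff₀ (by positivity)] at h6
    calc ‖pt w s‖ ^ k ≤ (|s| + R) ^ k := by gcongr
      _ ≤ _ := by rw [mul_comm]; exact h6
  rw [F, norm_mul, norm_E]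
  have h7 : -w.re * s ^ 2 + (w ^ 2 - x).im * s + (w ^ 3 / 3 - x * w).re + (|s| + R) ≤
      (R + c + (B + 1) ^ 2 / (4 * α)) + (-α * s ^ 2) := by
    have h8 : (w ^ 2 - x).im * s ≤ B * |s| := by
      calc (w ^ 2 - x).im * s ≤ |(w ^ 2 - x).im * s| := le_abs_self _
        _ = |(w ^ 2 - x).im| * |s| := abs_mul _ _
        _ ≤ _ := by gcongr
    have h9 : w.re * s ^ 2 ≥ 2 * α * s ^ 2 := by gcongr
    have h10 : (B + 1) * |s| ≤ α * s ^ 2 + (B + 1) ^ 2 / (4 * α) := by
      have h11 : 0 ≤ (2 * α * |s| - (B + 1)) ^ 2 / (4 * α) := by positivity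
      have h12 : (2 * α * |s| - (B + 1)) ^ 2 / (4 * α) =
          α * |s| ^ 2 - (B + 1) * |s| + (B + 1) ^ 2 / (4 * α) := by
        field_simp
        ring
      rw [h12, sq_abs] at h11
      linarith
    linarith
  calc ‖(I * pt w s) ^ k‖ * Real.exp (-w.re * s ^ 2 + (w ^ 2 - x).im * s +
        (w ^ 3 / 3 - x * w).re)
      ≤ (k.factorial * Real.exp (|s| + R)) * Real.exp (-w.re * s ^ 2 + (w ^ 2 - x).im * s +
        (w ^ 3 / 3 - x * w).re) := by gcongr
    _ = k.factorial * Real.exp (-w.re * s ^ 2 + (w ^ 2 - x).im * s +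
        (w ^ 3 / 3 - x * w).re + (|s| + R)) := by
        rw [mul_assoc, ← Real.exp_add]
        ring_nf
    _ ≤ k.factorial * Real.exp ((R + c + (B + 1) ^ 2 / (4 * α)) + (-α * s ^ 2)) := by
        gcongr
    _ = _ := by rw [Real.exp_add, mul_assoc]

theorem continuous_F (k : ℕ) (x w : ℂ) : Continuous fun s : ℝ => F k x (pt w s) := by
  unfold F E pt
  fun_prop

theorem integrable_F (k : ℕ) {w : ℂ} (hw : 0 < w.re) (x : ℂ) :
    Integrable fun s : ℝ => F k x (pt w s) := by
  obtain ⟨C, hC⟩ := exists_bound k hw x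
  refine Integrable.mono' (g := fun s => C * Real.exp (-(w.re / 4) * s ^ 2)) ?_
    (continuous_F k x w).aestronglyMeasurable ?_
  · exact (integrable_exp_neg_mul_sq (by positivity)).const_mul C
  · refine Eventually.of_forall fun s => hC w ?_ x ?_ s
    · simp only [sub_self, norm_zero]
      positivity
    · simp

theorem hasDerivAt_E_left (x z : ℂ) : HasDerivAt (fun x => E x z) (I * z * E x z) x := by
  have h1 : HasDerivAt (fun x : ℂ => I * (z ^ 3 / 3 + x * z)) (I * z) x := by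
    have := (((hasDerivAt_id x).mul_const z).const_add (z ^ 3 / 3)).const_mul I
    simpa using this
  have := h1.cexp
  simpa [E, mul_comm] using this

theorem hasDerivAt_E_right (x z : ℂ) :
    HasDerivAt (fun z => E x z) (I * (z ^ 2 + x) * E x z) z := by
  have h1 : HasDerivAt (fun z : ℂ => I * (z ^ 3 / 3 + x * z)) (I * (z ^ 2 + x)) z := by
    have := (((hasDerivAt_pow 3 z).div_const 3).add ((hasDerivAt_id z).const_mul x)).const_mul I
    refine this.congr_deriv ?_
    simp
  have := h1.cexp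
  simpa [E, mul_comm] using this

theorem hasDerivAt_F_left (k : ℕ) (x z : ℂ) :
    HasDerivAt (fun x => F k x z) (F (k + 1) x z) x := by
  have := (hasDerivAt_E_left x z).const_mul ((I * z) ^ k)
  refine this.congr_deriv ?_
  rw [F, pow_succ]
  ring

/-- the derivative of the integrand along the path -/
noncomputable def F' (k : ℕ) (x z : ℂ) : ℂ :=
  k * I * F (k - 1) x z - I * F (k + 2) x z + I * x * F k x z

theorem hasDerivAt_F_right (k : ℕ) (x z : ℂ) :
    HasDerivAt (fun z => F k x z) (F' k x z) z := by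
  have h1 : HasDerivAt (fun z : ℂ => (I * z) ^ k) (k * (I * z) ^ (k - 1) * I) z := by
    have := ((hasDerivAt_id z).const_mul I).fun_pow k
    simpa using this
  have h2 := h1.mul (hasDerivAt_E_right x z)
  refine h2.congr_deriv ?_
  have h : I ^ 2 = -1 := I_sq
  unfold F' F
  linear_combination (I * (I * z) ^ k * E x z * z ^ 2) * h

/-- the integral is an entire function of `x` -/
theorem hasDerivAt_J (k : ℕ) {w : ℂ} (hw : 0 < w.re) (x : ℂ) :
    HasDerivAt (J k w) (J (k + 1) w x) x := by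
  obtain ⟨C, hC⟩ := exists_bound (k + 1) hw x
  refine (hasDerivAt_integral_of_dominated_loc_of_deriv_le (μ := volume)
    (s := Metric.closedBall x 1) (F := fun x (s : ℝ) => F k x (pt w s))
    (F' := fun x (s : ℝ) => F (k + 1) x (pt w s))
    (bound := fun s => C * Real.exp (-(w.re / 4) * s ^ 2))
    (Metric.closedBall_mem_nhds x one_pos) ?_ (integrable_F k hw x)
    (continuous_F (k + 1) x w).aestronglyMeasurable ?_ ?_ ?_).2
  · exact Eventually.of_forall fun y => (continuous_F k y w).aestronglyMeasurable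
  · refine Eventually.of_forall fun s y hy => hC w ?_ y ?_ s
    · simp only [sub_self, norm_zero]
      positivity
    · rwa [mem_closedBall_iff_norm] at hy
  · exact (integrable_exp_neg_mul_sq (by positivity)).const_mul C
  · exact Eventually.of_forall fun s y _ => hasDerivAt_F_left k y _

theorem hasDerivAt_pt (w : ℂ) (s : ℝ) : HasDerivAt (fun s : ℝ => pt w s) 1 s := by
  unfold pt
  exact (hasDerivAt_id s).ofReal_comp.add_const (I * w)

theorem hasDerivAt_pt_w (w : ℂ) (s : ℝ) : HasDerivAt (fun w : ℂ => pt w s) I w := by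
  unfold pt
  have := ((hasDerivAt_id w).const_mul I).const_add (s : ℂ)
  simpa using this

theorem integrable_F' (k : ℕ) {w : ℂ} (hw : 0 < w.re) (x : ℂ) :
    Integrable fun s : ℝ => F' k x (pt w s) := by
  unfold F'
  exact (((integrable_F (k - 1) hw x).const_mul _).sub
    ((integrable_F (k + 2) hw x).const_mul _)).add ((integrable_F k hw x).const_mul _)

theorem integral_F' (k : ℕ) {w : ℂ} (hw : 0 < w.re) (x : ℂ) :
    ∫ s : ℝ, F' k x (pt w s) = 0 := by
  refine integral_eq_zero_of_hasDerivAt_of_integrable (f := fun s : ℝ => F k x (pt w s))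
    (fun s => ?_) (integrable_F' k hw x) (integrable_F k hw x)
  have := (hasDerivAt_F_right k x (pt w s)).comp_of_eq s (hasDerivAt_pt w s) rfl
  simpa [Function.comp_def] using this

/-- Airy's equation -/
theorem J_two {w : ℂ} (hw : 0 < w.re) (x : ℂ) : J 2 w x = x * J 0 w x := by
  have h := integral_F' 0 hw x
  have h1 : (fun s : ℝ => F' 0 x (pt w s)) =
      fun s : ℝ => (-I) * F 2 x (pt w s) + (I * x) * F 0 x (pt w s) := by
    funext s
    unfold F'
    push_cast
    ring
  rw [h1, integral_add ((integrable_F 2 hw x).const_mul _) ((integrable_F 0 hw x).const_mul _),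
    integral_const_mul, integral_const_mul] at h
  have h2 : I ≠ 0 := I_ne_zero
  have h3 : I * (x * J 0 w x - J 2 w x) = 0 := by
    unfold J
    linear_combination h
  rcases mul_eq_zero.1 h3 with h4 | h4
  · exact absurd h4 h2
  · exact (sub_eq_zero.1 h4).symm

/-- the integral does not depend on the path -/
theorem hasDerivAt_J_w (k : ℕ) {w : ℂ} (hw : 0 < w.re) (x : ℂ) :
    HasDerivAt (fun w => J k w x) 0 w := by
  have hb : ∃ C : ℝ, ∀ v : ℂ, ‖v - w‖ ≤ w.re / 2 → ∀ s : ℝ,
      ‖I * F' k x (pt v s)‖ ≤ C * Real.exp (-(w.re / 4) * s ^ 2) := by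
    obtain ⟨C1, h1⟩ := exists_bound (k - 1) hw x
    obtain ⟨C2, h2⟩ := exists_bound (k + 2) hw x
    obtain ⟨C3, h3⟩ := exists_bound k hw x
    refine ⟨k * C1 + C2 + ‖x‖ * C3, fun v hv s => ?_⟩
    have hx : ‖x - x‖ ≤ 1 := by simp
    have e1 := h1 v hv x hx s
    have e2 := h2 v hv x hx s
    have e3 := h3 v hv x hx s
    set G := Real.exp (-(w.re / 4) * s ^ 2)
    rw [norm_mul, norm_I, one_mul]
    unfold F'
    calc ‖(k : ℂ) * I * F (k - 1) x (pt v s) - I * F (k + 2) x (pt v s) +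
          I * x * F k x (pt v s)‖
        ≤ ‖(k : ℂ) * I * F (k - 1) x (pt v s)‖ + ‖I * F (k + 2) x (pt v s)‖ +
          ‖I * x * F k x (pt v s)‖ := (norm_add_le _ _).trans (by gcongr; exact norm_sub_le _ _)
      _ = k * ‖F (k - 1) x (pt v s)‖ + ‖F (k + 2) x (pt v s)‖ +
          ‖x‖ * ‖F k x (pt v s)‖ := by
          simp [mul_assoc]
      _ ≤ k * (C1 * G) + C2 * G + ‖x‖ * (C3 * G) := by gcongr
      _ = _ := by ring
  obtain ⟨C, hC⟩ := hb
  have h := (hasDerivAt_integral_of_dominated_loc_of_deriv_le (μ := volume)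
    (s := Metric.ball w (w.re / 2)) (x₀ := w) (F := fun v (s : ℝ) => F k x (pt v s))
    (F' := fun v (s : ℝ) => I * F' k x (pt v s))
    (bound := fun s => C * Real.exp (-(w.re / 4) * s ^ 2))
    (Metric.ball_mem_nhds w (by positivity)) ?_ (integrable_F k hw x)
    ((integrable_F' k hw x).const_mul I).aestronglyMeasurable ?_ ?_ ?_).2
  · refine h.congr_deriv ?_
    rw [integral_const_mul, integral_F' k hw x, mul_zero]
  · exact Eventually.of_forall fun v => (continuous_F k x v).aestronglyMeasurable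
  · refine Eventually.of_forall fun s v hv => hC v ?_ s
    rw [mem_ball_iff_norm] at hv
    exact hv.le
  · exact (integrable_exp_neg_mul_sq (by positivity)).const_mul C
  · refine Eventually.of_forall fun s v _ => ?_
    have := (hasDerivAt_F_right k x (pt v s)).comp_of_eq v (hasDerivAt_pt_w v s) rfl
    refine this.congr_deriv ?_
    ring

theorem J_eq (k : ℕ) {w w' : ℂ} (hw : 0 < w.re) (hw' : 0 < w'.re) (x : ℂ) :
    J k w x = J k w' x := by
  have hconv : Convex ℝ {w : ℂ | 0 < w.re} := convex_halfSpace_re_gt 0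
  have hopen : IsOpen {w : ℂ | 0 < w.re} := isOpen_lt continuous_const continuous_re
  refine hopen.is_const_of_deriv_eq_zero hconv.isPreconnected (f := fun w => J k w x)
    (fun v hv => ((hasDerivAt_J_w k hv x).differentiableAt).differentiableWithinAt) ?_ hw hw'
  intro v hv
  exact (hasDerivAt_J_w k hv x).deriv

end Pool.Agent.H25.Airy
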